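import Mathlib
import Pool.Agent.Helper29.BernMain

/-!
Degrees of rational factors of Bernoulli polynomials of even index.
-/

namespace Pool.Agent.Results.MP_b354c3_nt.DegreeDivisibility

open Polynomial

/-- For every even `n > 0`, the degree of every factor `f` of the Bernoulli polynomial `B_n` in
`ℚ[X]` is divisible by `2^a 3^b`, where `2^a` and `3^b` are the exact powers of `2` and `3`
dividing `n`. In particular `B_n` is irreducible over `ℚ` for all `n = 2^r 3^s` with `r ≥ 1`. -/
theorem result (n : ℕ) (hn : 0 < n) (he : Even n) (f : ℚ[X]) (hf : f ∣ Polynomial.bernoulli n) :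
    2 ^ n.factorization 2 * 3 ^ n.factorization 3 ∣ f.natDegree :=
  Nat.Coprime.mul_dvd_of_dvd_of_dvd (Nat.Coprime.pow _ _ (by norm_num))
    (Pool.Agent.Helper29.two_part hn he hf) (Pool.Agent.Helper29.three_part hn he hf)

end Pool.Agent.Results.MP_b354c3_nt.DegreeDivisibility
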