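import Mathlib
import Pool.Agent.BDN.FIN
import Pool.Agent.Bern3.Fin

/-!
Almost all Bernoulli polynomials of even degree are irreducible.
-/

namespace Pool.Agent.Results.MP_b354c3_nt.AlmostAllEven

open Polynomial Finset

/-- The even integers `n` for which the Bernoulli polynomial `B_n` is reducible over `ℚ` have density zero: for every
`ε > 0` there is `x₀` such that for all `x ≥ x₀` at most `ε x` of the even integers `0 < n ≤ x` have `B_n` reducible
over `ℚ`. -/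
theorem result (ε : ℝ) (hε : 0 < ε) : ∃ x₀ : ℕ, ∀ x : ℕ, x₀ ≤ x →
    ({n : ℕ | 0 < n ∧ n ≤ x ∧ Even n ∧ ¬ Irreducible (Polynomial.bernoulli n)}.ncard : ℝ) ≤
      ε * x := by
  classical
  obtain ⟨A, hA⟩ := Pool.Agent.Bern3.thmA_bdn
  obtain ⟨x0, hx0⟩ := Pool.Agent.BDN.almost_all_of A hA ε hε
  refine ⟨x0, fun x hx => le_trans (le_of_eq ?_) (hx0 x hx)⟩
  congr 1
  have h : {n : ℕ | 0 < n ∧ n ≤ x ∧ Even n ∧ ¬ Irreducible (Polynomial.bernoulli n)} =
      ↑((Icc 1 x).filter (fun n => Even n ∧ ¬ Irreducible (Polynomial.bernoulli n))) := by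
    ext n
    simp only [Set.mem_setOf_eq, coe_filter, mem_Icc]
    constructor
    · rintro ⟨h1, h2, h3, h4⟩; exact ⟨⟨h1, h2⟩, h3, h4⟩
    · rintro ⟨⟨h1, h2⟩, h3, h4⟩; exact ⟨h1, h2, h3, h4⟩
  rw [h, Set.ncard_coe_finset]

end Pool.Agent.Results.MP_b354c3_nt.AlmostAllEven
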