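import Mathlib
import Pool.Agent.Bern2.FIN

/-!
For almost all primes `l` the Bernoulli polynomial `B_{2l}` is irreducible over `ℚ`.
-/

namespace Pool.Agent.Results.MP_b354c3_nt.AlmostAllPrimes

open Polynomial

/-- For every `ε > 0` and all large `x`, the number of primes `l ≤ x` for which the Bernoulli
polynomial `B_{2l}` is reducible over `ℚ` is at most `ε π(x)`. -/
theorem result : ∀ ε : ℝ, 0 < ε → ∃ x0 : ℕ, ∀ x : ℕ, x0 ≤ x →
    (Nat.card {l : ℕ // l ≤ x ∧ l.Prime ∧ ¬ Irreducible (Polynomial.bernoulli (2 * l))} : ℝ) ≤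
      ε * Nat.primeCounting x := by
  classical
  intro ε hε
  obtain ⟨x0, h⟩ := Pool.Agent.Bern2.irreducible_almost_all ε hε
  refine ⟨x0, fun x hx => ?_⟩
  have h1 := h x hx
  have h2 : Nat.card {l : ℕ // l ≤ x ∧ l.Prime ∧ ¬ Irreducible (Polynomial.bernoulli (2 * l))} =
      ((Finset.range (x + 1)).filter (fun l => l.Prime ∧
        ¬ Irreducible (Polynomial.bernoulli (2 * l)))).card := by
    have h4 : {l : ℕ | l ≤ x ∧ l.Prime ∧ ¬ Irreducible (Polynomial.bernoulli (2 * l))} =
        (((Finset.range (x + 1)).filter (fun l => l.Prime ∧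
          ¬ Irreducible (Polynomial.bernoulli (2 * l))) : Finset ℕ) : Set ℕ) := by
      ext l
      rw [Finset.mem_coe, Finset.mem_filter, Finset.mem_range, Nat.lt_succ_iff]
      rfl
    change Nat.card ({l : ℕ | l ≤ x ∧ l.Prime ∧
      ¬ Irreducible (Polynomial.bernoulli (2 * l))} : Set ℕ) = _
    rw [h4]
    exact Nat.card_eq_card_toFinset _ |>.trans (by simp)
  have h3 : Nat.primeCounting x = ((Finset.range (x + 1)).filter (fun l => l.Prime)).card := by
    rw [Nat.primeCounting, Nat.primeCounting', Nat.count_eq_card_filter_range]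
  rw [h2, h3]
  convert h1

end Pool.Agent.Results.MP_b354c3_nt.AlmostAllPrimes
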