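import Mathlib
import Pool.Agent.Helper98.Bern.Final

/-!
Bernoulli polynomials have a rational irreducible factor of almost full degree.
-/

namespace Pool.Agent.Results.MP_b354c3_nt.LargeFactor

open Polynomial

/-- There is an `N0` such that for all `n ≥ N0` the Bernoulli polynomial `B_n` has an irreducible
factor `g` in `ℚ[X]` with `n - deg g ≤ n ^ (99/100)`. -/
theorem result : ∃ N0 : ℕ, ∀ n : ℕ, N0 ≤ n → ∃ g : ℚ[X], Irreducible g ∧
    g ∣ Polynomial.bernoulli n ∧ (n - g.natDegree) ^ 100 ≤ n ^ 99 :=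
  Pool.Agent.Helper98.Bern.large_factor

end Pool.Agent.Results.MP_b354c3_nt.LargeFactor
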